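import Pool.Agent.H24.RCN.Targets

/-!
# RM1: no prime ideal is ramified
-/

set_option autoImplicit false

open NumberField Pool.Agent.H24.RCN

namespace Pool.Agent.H36.RCN

theorem pf_RM1 : T_RM1 := by
  intro F L _ _ _ _ _ κ σ J hκ hE hU Q hQ hQ0 hdvd
  have hgal := hE.gal
  have hfin : FiniteDimensional F L := by
    refine Module.finite_of_finrank_pos ?_
    rw [hE.deg]
    exact hκ.pos
  obtain ⟨p, hp⟩ : ∃ p : Ideal (𝓞 F), p = Q.under (𝓞 F) := ⟨_, rfl⟩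
  have hpp : p.IsPrime := by rw [hp]; exact Ideal.IsPrime.under (𝓞 F) Q
  have hlo : Q.LiesOver p := ⟨hp⟩
  have hp0 : p ≠ ⊥ := by
    rw [hp]
    exact Ideal.IsIntegral.comap_ne_bot (R := 𝓞 F) hQ0
  have hcardG : Nat.card (L ≃ₐ[F] L) = κ := by
    rw [IsGalois.card_aut_eq_finrank, hE.deg]
  have hfact : Fact (Nat.card (L ≃ₐ[F] L)).Prime := ⟨by rw [hcardG]; exact hκ⟩
  have hI : (Q.inertia (L ≃ₐ[F] L)) = ⊥ := by
    rcases Subgroup.eq_bot_or_eq_top_of_prime_card (Q.inertia (L ≃ₐ[F] L)) with h | h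
    · exact h
    · exfalso
      obtain ⟨x, y, hxy, hy⟩ := hU Q hQ
      have hσ : σ ∈ Q.inertia (L ≃ₐ[F] L) := by rw [h]; exact Subgroup.mem_top σ
      have h1 : σ • x - x ∈ Q := hσ x
      have h2 : σ • x - x = y := by
        apply RingOfIntegers.ext
        rw [hxy]
        rfl
      exact hy (h2 ▸ h1)
  have hcard : Nat.card (Q.inertia (L ≃ₐ[F] L)) = 1 := by rw [hI]; exact Subgroup.card_bot
  have h1 : Ideal.ramificationIdxIn p (𝓞 L) = 1 :=
    (Ideal.card_inertia_eq_ramificationIdxIn (G := (L ≃ₐ[F] L)) p Q).symm.trans hcard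
  have h2 : Q.ramificationIdx (𝓞 F) = 1 :=
    (Ideal.ramificationIdxIn_eq_ramificationIdx p Q (L ≃ₐ[F] L)).symm.trans h1
  have h3 : Ideal.ramificationIdx' p Q = 1 :=
    (Ideal.ramificationIdx'_eq_ramificationIdx p Q hp0).trans h2
  have h4 : p.map (algebraMap (𝓞 F) (𝓞 L)) ≤ Q := by rw [hp]; exact Ideal.map_comap_le
  refine (Ideal.ramificationIdx'_ne_one_iff h4).2 ?_ h3
  rw [hp]
  exact Ideal.le_of_dvd hdvd

end Pool.Agent.H36.RCN
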